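import Pool.Agent.Y374.TB.Main

/-!
# Families of varieties of type B with isomorphic cylinders

For a primitive root of unity `ω` of order `n + 1` and `t = (t_1, …, t_n)` with `t_i ≠ 0` let `Y_t`
be the affine surface obtained from `G_m × 𝔸¹` by identifying, for `i = 0, …, n`, the two points
`(ω ^ i, 0)` and `(ω ^ i, t_i)`, where `t_0 = 1`. All the `Y_t` are of type B, all the cylinders
`Y_t × 𝔸¹` are isomorphic, and `Y_t` is isomorphic to only finitely many `Y_s`. So the varieties
`Z` with `Z × 𝔸¹ ≅ Y × 𝔸¹`, `Y` of type B, can form families with any number `n` of parameters; in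
particular, for `n ≥ 1`, no `Y_t` is a rigid factor.
-/

open Polynomial

set_option autoImplicit false

namespace Pool.Agent.Results.MP_340332_ag.TypeBFamilies

open Pool.Agent.H868R3 Pool.Agent.Y374.TB

universe u

/-- The value at the point `(c, v)` of `G_m × 𝔸¹`, on polynomials over the ring of Laurent
polynomials. -/
noncomputable def value {K : Type u} [Field K] (c : Kˣ) (v : K) :
    (LaurentPolynomial K)[X] →ₐ[K] K :=
  ev (evL c) v

/-- The parameters `T = (1, t_1, …, t_n)`. -/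
def T {K : Type u} [Field K] {n : ℕ} (t : Fin n → Kˣ) : Fin (n + 1) → K :=
  Fin.cons 1 fun i => (t i : K)

/-- The coordinate ring `A_t` of `Y_t`: the regular functions `f` on `G_m × 𝔸¹` with
`f (ω ^ i, 0) = f (ω ^ i, T i)` for all `i = 0, …, n`. -/
noncomputable def A {K : Type u} [Field K] (n : ℕ) (ω : Kˣ) (t : Fin n → Kˣ) :
    Subalgebra K (LaurentPolynomial K)[X] :=
  ⨅ i : Fin (n + 1), AlgHom.equalizer (value (ω ^ (i : ℕ)) 0) (value (ω ^ (i : ℕ)) (T t i))

section props

variable (K : Type u) [Field K] (n : ℕ) (ω : Kˣ)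

/-- all `A_t` are finitely generated domains of type B -/
def AllTypeB : Prop :=
  ∀ t : Fin n → Kˣ, IsDomain (A n ω t) ∧ Algebra.FiniteType K (A n ω t) ∧ IsTypeB K (A n ω t)

/-- all the cylinders are isomorphic -/
def SameCylinder : Prop :=
  ∀ s t : Fin n → Kˣ, Nonempty ((A n ω s)[X] ≃ₐ[K] (A n ω t)[X])

/-- an isomorphism `A_s ≅ A_t` gives a permutation `π` and a constant `C ≠ 0` with
`T_s (π i) ^ (2 (n + 1)) = C * T_t i ^ (2 (n + 1))` for all `i` -/
def IsoCondition : Prop :=
  ∀ s t : Fin n → Kˣ, Nonempty (A n ω s ≃ₐ[K] A n ω t) →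
    ∃ (π : Equiv.Perm (Fin (n + 1))) (C : K), C ≠ 0 ∧
      ∀ i, T s (π i) ^ (2 * (n + 1)) = C * T t i ^ (2 * (n + 1))

/-- each `A_t` is isomorphic to only finitely many `A_s` -/
def FewIsomorphic : Prop :=
  ∀ t : Fin n → Kˣ, {s : Fin n → Kˣ | Nonempty (A n ω s ≃ₐ[K] A n ω t)}.Finite

/-- no `A_t` is a rigid factor -/
def NoneRigid : Prop :=
  ∀ t : Fin n → Kˣ, ¬ IsRigidFactor K (A n ω t)

end props

/-- the positive answer to the question over `K`: there is a finitely generated domain of type B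
which is not a rigid factor -/
def Answer (K : Type u) [Field K] : Prop :=
  ∃ (B : Type u) (_ : CommRing B) (_ : Algebra K B), IsDomain B ∧ Algebra.FiniteType K B ∧
    IsTypeB K B ∧ ¬ IsRigidFactor K B

/-- **Type B families.** (1) Over a field `K` of characteristic zero with a primitive root of unity
`ω` of order `n + 1` all the algebras `A_t`, `t ∈ (Kˣ) ^ n`, are finitely generated domains of type
B, all the `A_t[u]` are isomorphic, an isomorphism `A_s ≅ A_t` gives a permutation `π` and a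
constant `C ≠ 0` with `T_s (π i) ^ (2 (n + 1)) = C * T_t i ^ (2 (n + 1))` for all `i`, each `A_t` is
isomorphic to only finitely many `A_s`, and, for `n ≥ 1`, no `A_t` is a rigid factor. (2) Such `ω`
exist if `K` is algebraically closed. (3) So there are varieties of type B which are not rigid
factors. -/
theorem result :
    (∀ (K : Type u) [Field K] [CharZero K] (n : ℕ) (ω : Kˣ), IsPrimitiveRoot ω (n + 1) →
      AllTypeB K n ω ∧ SameCylinder K n ω ∧ IsoCondition K n ω ∧ FewIsomorphic K n ω ∧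
        (1 ≤ n → NoneRigid K n ω)) ∧
    (∀ (K : Type u) [Field K] [IsAlgClosed K] [CharZero K] (n : ℕ),
      ∃ ω : Kˣ, IsPrimitiveRoot ω (n + 1)) ∧
    (∀ (K : Type u) [Field K] [IsAlgClosed K] [CharZero K], Answer K) := by
  have h1 : ∀ (K : Type u) [Field K] [CharZero K] (n : ℕ) (ω : Kˣ), IsPrimitiveRoot ω (n + 1) →
      AllTypeB K n ω ∧ SameCylinder K n ω ∧ IsoCondition K n ω ∧ FewIsomorphic K n ω ∧
        (1 ≤ n → NoneRigid K n ω) := by
    intro K _ _ n ω hω
    exact ⟨fun t => ⟨inferInstance, fam_finiteType hω t, fam_typeB hω t⟩,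
      fun s t => fam_cylinder hω s t, fun s t h => fam_iso hω s t h, fun t => fam_finite hω t,
      fun hn t => fam_not_rigid hn hω t⟩
  have h2 : ∀ (K : Type u) [Field K] [IsAlgClosed K] [CharZero K] (n : ℕ),
      ∃ ω : Kˣ, IsPrimitiveRoot ω (n + 1) := by
    intro K _ _ _ n
    have : NeZero ((n + 1 : ℕ) : K) := ⟨Nat.cast_ne_zero.2 (Nat.succ_ne_zero n)⟩
    obtain ⟨ζ, hζ⟩ := HasEnoughRootsOfUnity.exists_primitiveRoot K (n + 1)
    obtain ⟨ω, rfl⟩ := hζ.isUnit (Nat.succ_ne_zero n)
    exact ⟨ω, IsPrimitiveRoot.coe_units_iff.1 hζ⟩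
  refine ⟨h1, h2, fun K _ _ _ => ?_⟩
  obtain ⟨ω, hω⟩ := h2 K 1
  obtain ⟨h3, -, -, -, h4⟩ := h1 K 1 ω hω
  exact ⟨A 1 ω (fun _ => 1), inferInstance, inferInstance, (h3 _).1, (h3 _).2.1, (h3 _).2.2,
    h4 le_rfl _⟩

end Pool.Agent.Results.MP_340332_ag.TypeBFamilies
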